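import Pool.Agent.Helper98.PS.Spec

set_option autoImplicit false

/-! Part CEN of swarm PS. -/

namespace Pool.Agent.Helper33.PS

open Pool.Agent.Helper98.PS
open Pool.Agent.Helper75.PM (LF PMin Kp cm)

/-- the elements killed by `n` in an abelian subgroup -/
def Mn {K : Type} [Group K] (M : Subgroup K) (hab : Abel M) (n : ℕ) : Subgroup K where
  carrier := {m | m ∈ M ∧ m ^ n = 1}
  mul_mem' := by
    rintro a b ⟨ha, ha'⟩ ⟨hb, hb'⟩
    refine ⟨M.mul_mem ha hb, ?_⟩
    have h1 : Commute a b := hab a ha b hb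
    rw [h1.mul_pow, ha', hb', one_mul]
  one_mem' := ⟨M.one_mem, one_pow n⟩
  inv_mem' := by
    rintro a ⟨ha, ha'⟩
    exact ⟨M.inv_mem ha, by rw [inv_pow, ha', inv_one]⟩

lemma mem_Mn {K : Type} [Group K] {M : Subgroup K} {hab : Abel M} {n : ℕ} {m : K} :
    m ∈ Mn M hab n ↔ m ∈ M ∧ m ^ n = 1 := Iff.rfl

lemma conj_mem_Mn {K : Type} [Group K] {M : Subgroup K} {hab : Abel M} (hM : M.Normal) {n : ℕ}
    {m : K} (hm : m ∈ Mn M hab n) (g : K) : g * m * g⁻¹ ∈ Mn M hab n := by
  refine ⟨hM.conj_mem _ hm.1 g, ?_⟩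
  rw [conj_pow, hm.2]
  group

/-- the commutative group structure -/
@[reducible] def cgMn {K : Type} [Group K] (M : Subgroup K) (hab : Abel M) (n : ℕ) :
    CommGroup (Mn M hab n) :=
  { (inferInstance : Group (Mn M hab n)) with
    mul_comm := fun a b => Subtype.ext (hab a a.2.1 b b.2.1) }

theorem cen_prime (hLIN : S_LIN) (p : ℕ) (K : Type) [Group K] (T : Subgroup K) (x : K)
    (hG : Gam p K T x) (M : Subgroup K) (hM : M.Normal) (hMT : M ≤ T) (hab : Abel M) (q : ℕ)
    (hq : q.Prime) (m : K) (hm : m ∈ M) (hmq : m ^ q = 1) (t : K) (ht : t ∈ T) :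
    m * t = t * m := by
  classical
  by_cases hqp : q = p
  · have h1 : m = 1 := hG.pf m (hMT hm) 1 (by rw [pow_one, ← hqp]; exact hmq)
    rw [h1, one_mul, mul_one]
  let _ := cgMn M hab q
  let ρ : Act K (Additive (Mn M hab q)) :=
    { f := fun k v => Additive.ofMul ⟨k * ((v.toMul : Mn M hab q) : K) * k⁻¹,
        conj_mem_Mn hM v.toMul.2 k⟩
      one' := by
        intro v
        apply Additive.toMul.injective
        apply Subtype.ext
        change (1 : K) * ((v.toMul : Mn M hab q) : K) * (1 : K)⁻¹ = ((v.toMul : Mn M hab q) : K)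
        group
      mul' := by
        intro a b v
        apply Additive.toMul.injective
        apply Subtype.ext
        change (a * b) * ((v.toMul : Mn M hab q) : K) * (a * b)⁻¹ =
          a * (b * ((v.toMul : Mn M hab q) : K) * b⁻¹) * a⁻¹
        group
      add' := by
        intro a v w
        apply Additive.toMul.injective
        apply Subtype.ext
        change a * (((v.toMul : Mn M hab q) : K) * ((w.toMul : Mn M hab q) : K)) * a⁻¹ =
          (a * ((v.toMul : Mn M hab q) : K) * a⁻¹) * (a * ((w.toMul : Mn M hab q) : K) * a⁻¹)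
        group }
  have hval : ∀ (k : K) (v : Additive (Mn M hab q)), (((ρ.f k v).toMul : Mn M hab q) : K) =
      k * ((v.toMul : Mn M hab q) : K) * k⁻¹ := fun k v => rfl
  have hqv : ∀ v : Additive (Mn M hab q), q • v = 0 := by
    intro v
    apply Additive.toMul.injective
    rw [toMul_nsmul, toMul_zero]
    apply Subtype.ext
    rw [Subgroup.coe_pow, Subgroup.coe_one]
    exact v.toMul.2.2
  have := hM
  have hsoc := Pool.Agent.Helper75.PM.socle p hG.hp hG.lf hG.pm M hab
    (fun a ha k hk => hG.pf a (hMT ha) k hk) x hG.xp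
  have hfin : (ρ.dS x : Set (Additive (Mn M hab q))).Finite := by
    let g : Additive (Mn M hab q) → K := fun v => ((v.toMul : Mn M hab q) : K)
    have hg : Function.Injective g := fun v w hvw => Additive.toMul.injective (Subtype.ext hvw)
    refine (hsoc.preimage hg.injOn).subset ?_
    rintro w ⟨v, rfl⟩
    have h1 : g ((ρ.hom x - AddMonoidHom.id (Additive (Mn M hab q))) v) = (g v * x * (g v)⁻¹ * x⁻¹)⁻¹ := by
      have h2 : (ρ.hom x - AddMonoidHom.id (Additive (Mn M hab q))) v = ρ.f x v - v := rfl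
      have h3 : g (ρ.f x v - v) = g (ρ.f x v) * (g v)⁻¹ := by
        change (((ρ.f x v - v).toMul : Mn M hab q) : K) = _
        rw [sub_eq_add_neg, toMul_add, toMul_neg]
        rfl
      rw [h2, h3]
      change (x * g v * x⁻¹) * (g v)⁻¹ = _
      group
    refine ⟨?_, q, hq, (((ρ.hom x - AddMonoidHom.id (Additive (Mn M hab q))) v).toMul : Mn M hab q).2.2⟩
    rw [h1]
    exact Subgroup.inv_mem _ (Subgroup.subset_closure ⟨g v, v.toMul.2.1, rfl⟩)
  have h1 := hLIN p K T x hG (Additive (Mn M hab q)) ρ q hq hqp hqv hfin t ht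
    (Additive.ofMul ⟨m, hm, hmq⟩)
  have h2 : t * m * t⁻¹ = m := congrArg (fun v : Additive (Mn M hab q) =>
    ((v.toMul : Mn M hab q) : K)) h1
  exact (mul_inv_eq_iff_eq_mul.1 h2).symm

theorem cen (hLIN : S_LIN) (hAB : S_AB) : S_CEN := by
  classical
  intro p K _ T x hG M hM hMT hab
  have key : ∀ n : ℕ, 0 < n → ∀ m ∈ M, m ^ n = 1 → ∀ t ∈ T, m * t = t * m := by
    intro n
    induction n using Nat.strong_induction_on with
    | _ n ih =>
      intro hn
      by_cases hn1 : n = 1
      · intro m _ hm1 t _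
        rw [hn1, pow_one] at hm1
        rw [hm1, one_mul, mul_one]
      -- the prime factor
      have hq : (n.minFac).Prime := Nat.minFac_prime hn1
      obtain ⟨n', hn'⟩ := Nat.minFac_dvd n
      set q := n.minFac with hqdef
      have hn'0 : 0 < n' := by
        rcases Nat.eq_zero_or_pos n' with h0 | h0
        · rw [h0, mul_zero] at hn'
          omega
        · exact h0
      have hn'lt : n' < n := by
        rw [hn']
        have := hq.two_le
        nlinarith
      -- commutators
      have hcom : ∀ u ∈ Mn M hab n, ∀ t ∈ T, t * u * t⁻¹ * u⁻¹ ∈ Mn M hab n' := by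
        intro u hu t ht
        have h1 : t * u * t⁻¹ ∈ M := hM.conj_mem u hu.1 t
        have h2 : Commute (t * u * t⁻¹) u⁻¹ := hab _ h1 _ (M.inv_mem hu.1)
        refine ⟨M.mul_mem h1 (M.inv_mem hu.1), ?_⟩
        rw [h2.mul_pow, conj_pow]
        have h3 : (u ^ n') * t = t * (u ^ n') := by
          refine cen_prime hLIN p K T x hG M hM hMT hab q hq (u ^ n') (M.pow_mem hu.1 n') ?_ t ht
          rw [← pow_mul, mul_comm n' q, ← hn']
          exact hu.2
        rw [← h3, inv_pow]
        group
      have hcen' : ∀ d ∈ Mn M hab n', ∀ t ∈ T, d * t = t * d := fun d hd t ht =>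
        ih n' hn'lt hn'0 d hd.1 hd.2 t ht
      -- the centraliser
      let C : Subgroup K :=
        { carrier := {t | t ∈ T ∧ ∀ u ∈ Mn M hab n, t * u * t⁻¹ = u}
          mul_mem' := by
            rintro a b ⟨ha, ha'⟩ ⟨hb, hb'⟩
            refine ⟨T.mul_mem ha hb, fun u hu => ?_⟩
            have h1 : (a * b) * u * (a * b)⁻¹ = a * (b * u * b⁻¹) * a⁻¹ := by group
            rw [h1, hb' u hu, ha' u hu]
          one_mem' := ⟨T.one_mem, fun u _ => by group⟩
          inv_mem' := by
            rintro a ⟨ha, ha'⟩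
            refine ⟨T.inv_mem ha, fun u hu => ?_⟩
            have h1 := ha' u hu
            have h2 : a⁻¹ * (a * u * a⁻¹) * a⁻¹⁻¹ = u := by group
            rw [h1] at h2
            exact h2 }
      have hmemC : ∀ t, t ∈ C ↔ t ∈ T ∧ ∀ u ∈ Mn M hab n, t * u * t⁻¹ = u := fun t => Iff.rfl
      have hCn : C.Normal := by
        refine ⟨fun c hc g => ?_⟩
        refine ⟨hG.nT.conj_mem c hc.1 g, fun u hu => ?_⟩
        have h1 := hc.2 (g⁻¹ * u * g) (by
          have := conj_mem_Mn hM hu g⁻¹
          rwa [inv_inv] at this)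
        have h2 : (g * c * g⁻¹) * u * (g * c * g⁻¹)⁻¹ = g * (c * (g⁻¹ * u * g) * c⁻¹) * g⁻¹ := by
          group
        rw [h2, h1]
        group
      have hCT : C ≤ T := fun c hc => hc.1
      have hpow : ∀ t ∈ T, t ^ n' ∈ C := by
        intro t ht
        refine ⟨T.pow_mem ht n', fun u hu => ?_⟩
        set d := t * u * t⁻¹ * u⁻¹ with hd
        have hdm := hcom u hu t ht
        have hdt : t * d * t⁻¹ = d := by
          rw [← hcen' d hdm t ht]
          group
        have htu : t * u * t⁻¹ = d * u := by rw [hd]; group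
        have h1 : ∀ j : ℕ, t ^ j * u * (t ^ j)⁻¹ = d ^ j * u := by
          intro j
          induction j with
          | zero => simp
          | succ j ihj =>
            have h2 : t ^ (j + 1) * u * (t ^ (j + 1))⁻¹ = t * (t ^ j * u * (t ^ j)⁻¹) * t⁻¹ := by
              rw [pow_succ']
              group
            rw [h2, ihj]
            have h3 : t * (d ^ j * u) * t⁻¹ = (t * d * t⁻¹) ^ j * (t * u * t⁻¹) := by
              rw [conj_pow]
              group
            rw [h3, hdt, htu, pow_succ]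
            exact (mul_assoc _ _ _).symm
        rw [h1 n', hdm.2, one_mul]
      have hcc : ∀ s ∈ T, ∀ t ∈ T, s * t * s⁻¹ * t⁻¹ ∈ C := by
        intro s hs t ht
        refine ⟨T.mul_mem (T.mul_mem (T.mul_mem hs ht) (T.inv_mem hs)) (T.inv_mem ht),
          fun u hu => ?_⟩
        -- `s t` and `t s` act in the same way
        have h0 : ∀ s ∈ T, ∀ t ∈ T, ∀ w ∈ Mn M hab n, (s * t) * w * (s * t)⁻¹ =
            (s * w * s⁻¹ * w⁻¹) * (t * w * t⁻¹ * w⁻¹) * w := by
          intro s hs t ht w hw
          have h1 := hcen' _ (hcom w hw t ht) s hs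
          calc (s * t) * w * (s * t)⁻¹ = s * (t * w * t⁻¹ * w⁻¹) * w * s⁻¹ := by group
            _ = (t * w * t⁻¹ * w⁻¹) * s * w * s⁻¹ := by rw [← h1]
            _ = (t * w * t⁻¹ * w⁻¹) * (s * w * s⁻¹ * w⁻¹) * w := by group
            _ = (s * w * s⁻¹ * w⁻¹) * (t * w * t⁻¹ * w⁻¹) * w := by
                rw [hab _ (hcom w hw t ht).1 _ (hcom w hw s hs).1]
        set w := (t * s)⁻¹ * u * (t * s) with hw
        have hwm : w ∈ Mn M hab n := by
          have := conj_mem_Mn hM hu (t * s)⁻¹
          rwa [inv_inv] at this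
        have h1 : (s * t) * w * (s * t)⁻¹ = (t * s) * w * (t * s)⁻¹ := by
          rw [h0 s hs t ht w hwm, h0 t ht s hs w hwm,
            hab _ (hcom w hwm t ht).1 _ (hcom w hwm s hs).1]
        have h2 : (s * t * s⁻¹ * t⁻¹) * u * (s * t * s⁻¹ * t⁻¹)⁻¹ = (s * t) * w * (s * t)⁻¹ := by
          rw [hw]
          group
        rw [h2, h1, hw]
        group
      have hC : C = T := hAB p K T x hG C hCn hCT n' hn'0 hpow hcc
      intro m hm hmn t ht
      rw [← hC] at ht
      have h1 := ht.2 m ⟨hm, hmn⟩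
      exact (mul_inv_eq_iff_eq_mul.1 h1).symm
  intro m hm t ht
  have h1 : IsOfFinOrder m := Pool.Agent.Helper75.PM.tors hG.lf m
  exact key (orderOf m) h1.orderOf_pos m hm (pow_orderOf_eq_one m) t ht

end Pool.Agent.Helper33.PS
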