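import Pool.Agent.Helper98.PS.Spec

set_option autoImplicit false

/-! Part F of swarm PS. -/

namespace Pool.Agent.Helper33.PS

open Pool.Agent.Helper98.PS
open Pool.Agent.Helper75.PM (LF PMin Kp cm)

lemma exists_finset_conj {K : Type} [Group K] (c g : K) (hg : g ∈ Subgroup.normalClosure {c}) :
    ∃ X : Set K, X.Finite ∧ g ∈ Subgroup.closure {h | ∃ f ∈ X, h = f * c * f⁻¹} := by
  have hmono : ∀ X Y : Set K, X ⊆ Y → Subgroup.closure {h | ∃ f ∈ X, h = f * c * f⁻¹} ≤
      Subgroup.closure {h | ∃ f ∈ Y, h = f * c * f⁻¹} := by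
    intro X Y hXY
    apply Subgroup.closure_mono
    rintro h ⟨f, hf, rfl⟩
    exact ⟨f, hXY hf, rfl⟩
  unfold Subgroup.normalClosure at hg
  induction hg using Subgroup.closure_induction with
  | mem y hy =>
    obtain ⟨z, hz, hzy⟩ := Group.mem_conjugatesOfSet_iff.1 hy
    rw [Set.mem_singleton_iff] at hz
    subst hz
    obtain ⟨f, hf⟩ := isConj_iff.1 hzy
    exact ⟨{f}, Set.finite_singleton f, Subgroup.subset_closure ⟨f, rfl, hf.symm⟩⟩
  | one => exact ⟨∅, Set.finite_empty, Subgroup.one_mem _⟩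
  | mul y z _ _ ihy ihz =>
    obtain ⟨X, hX, hy⟩ := ihy
    obtain ⟨Y, hY, hz⟩ := ihz
    exact ⟨X ∪ Y, hX.union hY, Subgroup.mul_mem _ (hmono _ _ Set.subset_union_left hy)
      (hmono _ _ Set.subset_union_right hz)⟩
  | inv y _ ihy =>
    obtain ⟨X, hX, hy⟩ := ihy
    exact ⟨X, hX, Subgroup.inv_mem _ hy⟩

theorem fF : S_F := by
  classical
  intro p K _ T x hG hno hmin
  by_contra hT
  have hnab : ¬ Abel T := fun h => hT (hno T hG.nT le_rfl h)
  unfold Abel at hnab
  push Not at hnab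
  obtain ⟨a, ha, b, hb, hab⟩ := hnab
  set c : K := a * b * a⁻¹ * b⁻¹ with hc
  have hc1 : c ≠ 1 := by
    intro h0
    apply hab
    rw [hc] at h0
    have h1 : a * b * a⁻¹ = b := by
      have := mul_eq_one_iff_eq_inv.1 h0
      rwa [inv_inv] at this
    exact mul_inv_eq_iff_eq_mul.1 h1
  have hcT : c ∈ T := T.mul_mem (T.mul_mem (T.mul_mem ha hb) (T.inv_mem ha)) (T.inv_mem hb)
  have := hG.nT
  have hncl : Subgroup.normalClosure {c} = T := by
    have h1 : Subgroup.normalClosure {c} ≤ T := Subgroup.normalClosure_le_normal (by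
      rw [Set.singleton_subset_iff]; exact hcT)
    rcases hmin _ Subgroup.normalClosure_normal h1 with h2 | h2
    · exfalso
      apply hc1
      have h3 : c ∈ Subgroup.normalClosure {c} :=
        Subgroup.subset_normalClosure (Set.mem_singleton c)
      rw [h2] at h3
      exact Subgroup.mem_bot.1 h3
    · exact h2
  obtain ⟨X, hX, haX⟩ := exists_finset_conj c a (by rw [hncl]; exact ha)
  obtain ⟨Y, hY, hbY⟩ := exists_finset_conj c b (by rw [hncl]; exact hb)
  let F : Subgroup K := Subgroup.closure ({a, b} ∪ (X ∪ Y))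
  have hFfin : (F : Set K).Finite := hG.lf _ (((Set.finite_singleton b).insert a).union (hX.union hY))
  have haF : a ∈ F := Subgroup.subset_closure (Or.inl (Or.inl rfl))
  have hbF : b ∈ F := Subgroup.subset_closure (Or.inl (Or.inr rfl))
  have hXF : ∀ f ∈ X, f ∈ F := fun f hf => Subgroup.subset_closure (Or.inr (Or.inl hf))
  have hYF : ∀ f ∈ Y, f ∈ F := fun f hf => Subgroup.subset_closure (Or.inr (Or.inr hf))
  let N₀ : Subgroup K := Subgroup.closure {h | ∃ f ∈ F, h = f * a * f⁻¹ ∨ h = f * b * f⁻¹}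
  have hN₀F : N₀ ≤ F := by
    rw [Subgroup.closure_le]
    rintro h ⟨f, hf, rfl | rfl⟩
    · exact F.mul_mem (F.mul_mem hf haF) (F.inv_mem hf)
    · exact F.mul_mem (F.mul_mem hf hbF) (F.inv_mem hf)
  have hN₀T : N₀ ≤ T := by
    rw [Subgroup.closure_le]
    rintro h ⟨f, hf, rfl | rfl⟩
    · exact hG.nT.conj_mem _ ha f
    · exact hG.nT.conj_mem _ hb f
  have hsol : Group.IsSolvable N₀ := hG.ls N₀ hN₀T (hFfin.subset hN₀F)
  have hnorm : ∀ f ∈ F, ∀ h ∈ N₀, f * h * f⁻¹ ∈ N₀ := by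
    intro f hf h hh
    have h1 : N₀ ≤ N₀.comap (MulAut.conj f).toMonoidHom := by
      rw [Subgroup.closure_le]
      rintro h ⟨g, hg, hh⟩
      apply Subgroup.subset_closure
      refine ⟨f * g, F.mul_mem hf hg, ?_⟩
      rcases hh with rfl | rfl
      · left
        simp [MulAut.conj_apply, mul_assoc]
      · right
        simp [MulAut.conj_apply, mul_assoc]
    exact h1 hh
  let D : Subgroup K := ⁅N₀, N₀⁆
  have hDnorm : ∀ f ∈ F, ∀ h ∈ D, f * h * f⁻¹ ∈ D := by
    intro f hf h hh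
    have h1 : D ≤ D.comap (MulAut.conj f).toMonoidHom := by
      rw [Subgroup.commutator_le]
      intro g hg g' hg'
      rw [Subgroup.mem_comap, map_commutatorElement]
      exact Subgroup.commutator_mem_commutator (hnorm f hf g hg) (hnorm f hf g' hg')
    exact h1 hh
  have haN : a ∈ N₀ := Subgroup.subset_closure ⟨1, F.one_mem, Or.inl (by simp)⟩
  have hbN : b ∈ N₀ := Subgroup.subset_closure ⟨1, F.one_mem, Or.inr (by simp)⟩
  have hcD : c ∈ D := Subgroup.commutator_mem_commutator haN hbN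
  have haD : a ∈ D := by
    refine (Subgroup.closure_le D).2 ?_ haX
    rintro h ⟨f, hf, rfl⟩
    exact hDnorm f (hXF f hf) c hcD
  have hbD : b ∈ D := by
    refine (Subgroup.closure_le D).2 ?_ hbY
    rintro h ⟨f, hf, rfl⟩
    exact hDnorm f (hYF f hf) c hcD
  have hND : N₀ ≤ D := by
    rw [Subgroup.closure_le]
    rintro h ⟨f, hf, rfl | rfl⟩
    · exact hDnorm f hf a haD
    · exact hDnorm f hf b hbD
  have hnt : Nontrivial N₀ := by
    refine ⟨⟨⟨c, ?_⟩, 1, ?_⟩⟩
    · exact N₀.mul_mem (N₀.mul_mem (N₀.mul_mem haN hbN) (N₀.inv_mem haN)) (N₀.inv_mem hbN)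
    · intro h0
      exact hc1 (congrArg Subtype.val h0)
  have hlt := Group.IsSolvable.commutator_lt_top_of_nontrivial N₀
  apply hlt.ne
  rw [eq_top_iff]
  intro g _
  have h1 : (g : K) ∈ (commutator N₀).map N₀.subtype := by
    rw [Subgroup.map_subtype_commutator]
    exact hND g.2
  obtain ⟨g', hg', hgg⟩ := h1
  have h2 : g' = g := Subtype.ext hgg
  rw [← h2]
  exact hg'

end Pool.Agent.Helper33.PS
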