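import Pool.Agent.Helper98.PS.Spec

set_option autoImplicit false

namespace Pool.Agent.Helper33.PS

open Pool.Agent.Helper98.PS

theorem half : S_HALF := by
  classical
  intro Ω _ σ hσ
  have hfin : {S : Set Ω | ∀ ω ∈ S, σ ω ∉ S}.Finite := Set.toFinite _
  have hne : {S : Set Ω | ∀ ω ∈ S, σ ω ∉ S}.Nonempty := ⟨∅, fun ω hω => absurd hω (by simp)⟩
  obtain ⟨S, hS⟩ := hfin.exists_maximal hne
  have hS1 : ∀ ω ∈ S, σ ω ∉ S := hS.prop
  refine ⟨S, hS1, ?_⟩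
  intro ω
  by_contra hcon
  push Not at hcon
  obtain ⟨h1, h2, h3⟩ := hcon
  have h4 : insert ω S ∈ {S : Set Ω | ∀ ω ∈ S, σ ω ∉ S} := by
    intro η hη
    rw [Set.mem_insert_iff] at hη
    rw [Set.mem_insert_iff]
    push Not
    rcases hη with rfl | hη
    · exact ⟨hσ η, h2⟩
    · exact ⟨fun h5 => h3 η hη h5.symm, hS1 η hη⟩
  have h5 := hS.le_of_ge h4 (Set.subset_insert ω S)
  exact h1 (h5 (Set.mem_insert ω S))

end Pool.Agent.Helper33.PS
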