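import Pool.Agent.Helper98.PS.Spec

set_option autoImplicit false

/-! Part LB of swarm PS. -/

namespace Pool.Agent.Helper33.PS

open Pool.Agent.Helper98.PS

/-- a conjugate -/
def cj {H : Type} [Group H] (h : H) (U : Subgroup H) : Subgroup H where
  carrier := {u | h⁻¹ * u * h ∈ U}
  mul_mem' := by
    intro a b ha hb
    have h1 : h⁻¹ * (a * b) * h = (h⁻¹ * a * h) * (h⁻¹ * b * h) := by group
    change h⁻¹ * (a * b) * h ∈ U
    rw [h1]
    exact U.mul_mem ha hb
  one_mem' := by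
    change h⁻¹ * 1 * h ∈ U
    have h1 : h⁻¹ * 1 * h = 1 := by group
    rw [h1]
    exact U.one_mem
  inv_mem' := by
    intro a ha
    have h1 : h⁻¹ * a⁻¹ * h = (h⁻¹ * a * h)⁻¹ := by group
    change h⁻¹ * a⁻¹ * h ∈ U
    rw [h1]
    exact U.inv_mem ha

lemma mem_cj {H : Type} [Group H] {h u : H} {U : Subgroup H} : u ∈ cj h U ↔ h⁻¹ * u * h ∈ U :=
  Iff.rfl

lemma cj_cj {H : Type} [Group H] (g h : H) (U : Subgroup H) : cj g (cj h U) = cj (g * h) U := by
  ext u
  rw [mem_cj, mem_cj, mem_cj]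
  have h1 : h⁻¹ * (g⁻¹ * u * g) * h = (g * h)⁻¹ * u * (g * h) := by group
  rw [h1]

lemma cj_one {H : Type} [Group H] (U : Subgroup H) : cj 1 U = U := by
  ext u
  rw [mem_cj]
  simp

lemma card_cj {H : Type} [Group H] (h : H) (U : Subgroup H) : Nat.card (cj h U) = Nat.card U := by
  refine Nat.card_congr ⟨fun u => ⟨h⁻¹ * u * h, u.2⟩, fun u => ⟨h * u * h⁻¹, ?_⟩, ?_, ?_⟩
  · rw [mem_cj]
    have h1 : h⁻¹ * (h * (u : H) * h⁻¹) * h = u := by group
    rw [h1]
    exact u.2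
  · intro u
    apply Subtype.ext
    change h * (h⁻¹ * (u : H) * h) * h⁻¹ = u
    group
  · intro u
    apply Subtype.ext
    change h⁻¹ * (h * (u : H) * h⁻¹) * h = u
    group

/-- the conjugates of a subgroup -/
def Om {H : Type} [Group H] (N₀ : Subgroup H) : Type := {U : Subgroup H // ∃ g, U = cj g N₀}

instance {H : Type} [Group H] (N₀ : Subgroup H) : MulAction H (Om N₀) where
  smul h U := ⟨cj h U.1, by
    obtain ⟨g, hg⟩ := U.2
    exact ⟨h * g, by rw [hg, cj_cj]⟩⟩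
  one_smul U := Subtype.ext (cj_one U.1)
  mul_smul a b U := Subtype.ext (cj_cj a b U.1).symm

lemma smul_val {H : Type} [Group H] {N₀ : Subgroup H} (h : H) (U : Om N₀) :
    (h • U).1 = cj h U.1 := rfl

instance {H : Type} [Group H] (N₀ : Subgroup H) : MulAction.IsPretransitive H (Om N₀) where
  exists_smul_eq := by
    rintro ⟨U, g, rfl⟩ ⟨U', g', rfl⟩
    refine ⟨g' * g⁻¹, Subtype.ext ?_⟩
    change cj (g' * g⁻¹) (cj g N₀) = cj g' N₀
    rw [cj_cj]
    congr 1
    group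

instance {H : Type} [Group H] [Finite H] (N₀ : Subgroup H) : Finite (Om N₀) :=
  inferInstanceAs (Finite {U : Subgroup H // ∃ g, U = cj g N₀})

section act

variable {H V : Type} [Group H] [AddCommGroup V] (ρ : Act H V)

/-- fixed vectors -/
def Fx (U : Subgroup H) : AddSubgroup V where
  carrier := {v | ∀ u ∈ U, ρ.f u v = v}
  add_mem' := by intro a b ha hb u hu; rw [ρ.add', ha u hu, hb u hu]
  zero_mem' := fun u _ => ρ.zero' u
  neg_mem' := by intro a ha u hu; rw [ρ.neg', ha u hu]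

lemma mem_Fx {U : Subgroup H} {v : V} : v ∈ Fx ρ U ↔ ∀ u ∈ U, ρ.f u v = v := Iff.rfl

lemma Fx_cj {h : H} {U : Subgroup H} {v : V} (hv : v ∈ Fx ρ U) : ρ.f h v ∈ Fx ρ (cj h U) := by
  intro u hu
  have h1 := hv _ hu
  rw [← ρ.mul']
  have h2 : u * h = h * (h⁻¹ * u * h) := by group
  rw [h2, ρ.mul', h1]

/-- the sum over a subgroup -/
noncomputable def ee [Finite H] (U : Subgroup H) : V →+ V :=
  letI := Fintype.ofFinite U
  ∑ n : U, ρ.hom n

lemma ee_apply [Finite H] (U : Subgroup H) (v : V) :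
    ee ρ U v = (letI := Fintype.ofFinite U; ∑ n : U, ρ.f n v) := by
  unfold ee
  simp

lemma ee_fix [Finite H] (U : Subgroup H) {v : V} (hv : v ∈ Fx ρ U) :
    ee ρ U v = Nat.card U • v := by
  rw [ee_apply]
  let _ := Fintype.ofFinite U
  have h1 : ∀ n : U, ρ.f n v = v := fun n => hv n n.2
  simp only [h1]
  rw [Finset.sum_const, Finset.card_univ, Nat.card_eq_fintype_card]

lemma ee_mem [Finite H] (U : Subgroup H) (v : V) : ee ρ U v ∈ Fx ρ U := by
  intro u hu
  rw [ee_apply]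
  let _ := Fintype.ofFinite U
  have h1 : ρ.f u (∑ n : U, ρ.f n v) = ∑ n : U, ρ.f u (ρ.f n v) := map_sum (ρ.hom u) _ _
  rw [h1]
  have h2 : ∀ n : U, ρ.f u (ρ.f n v) = ρ.f ((Equiv.mulLeft (⟨u, hu⟩ : U)) n : U) v := by
    intro n
    rw [← ρ.mul']
    rfl
  simp only [h2]
  exact Equiv.sum_comp (Equiv.mulLeft (⟨u, hu⟩ : U)) (fun n : U => ρ.f n v)

lemma ee_mem' [Finite H] {N U U' : Subgroup H} (hN : Abel N) (hU : U ≤ N) (hU' : U' ≤ N) {v : V}
    (hv : v ∈ Fx ρ U') : ee ρ U v ∈ Fx ρ U' := by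
  intro u hu
  rw [ee_apply]
  let _ := Fintype.ofFinite U
  have h1 : ρ.f u (∑ n : U, ρ.f n v) = ∑ n : U, ρ.f u (ρ.f n v) := map_sum (ρ.hom u) _ _
  rw [h1]
  refine Finset.sum_congr rfl fun n _ => ?_
  rw [← ρ.mul', hN u (hU' hu) n (hU n.2), ρ.mul', hv u hu]

end act

theorem lb (hL1 : S_L1) (hCOMM : S_COMM) (hCOP : S_COP) (hHALF : S_HALF) : S_LB := by
  classical
  intro H V _ _ _ _ _ ρ x hfai hirr hx N hN hNab hn
  obtain ⟨n, hnN, hn1, v₀, hv₀, hfix₀⟩ := hn
  -- the subgroup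
  have hfin : {U : Subgroup H | U ≤ N ∧ n ∈ U ∧ Fx ρ U ≠ ⊥}.Finite := Set.toFinite _
  have hne : {U : Subgroup H | U ≤ N ∧ n ∈ U ∧ Fx ρ U ≠ ⊥}.Nonempty := by
    refine ⟨Subgroup.zpowers n, ?_, Subgroup.mem_zpowers n, ?_⟩
    · rw [Subgroup.zpowers_le]
      exact hnN
    · intro h0
      apply hv₀
      have h1 : v₀ ∈ Fx ρ (Subgroup.zpowers n) := by
        intro u hu
        obtain ⟨j, rfl⟩ := Subgroup.mem_zpowers_iff.1 hu
        have h2 : ∀ j : ℕ, ρ.f (n ^ j) v₀ = v₀ := by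
          intro j
          induction j with
          | zero => rw [pow_zero, ρ.one']
          | succ j ih => rw [pow_succ, ρ.mul', hfix₀, ih]
        rcases Int.eq_nat_or_neg j with ⟨k, rfl | rfl⟩
        · rw [zpow_natCast]
          exact h2 k
        · rw [zpow_neg, zpow_natCast]
          have h3 := ρ.inv_f (n ^ k) v₀
          rw [h2 k] at h3
          exact h3
      rw [h0] at h1
      exact (AddSubgroup.mem_bot).1 h1
  obtain ⟨N₀, hmax⟩ := hfin.exists_maximal hne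
  obtain ⟨hN₀, hnN₀, hFx₀⟩ := hmax.prop
  have hle : ∀ ω : Om N₀, ω.1 ≤ N := by
    rintro ⟨U, g, rfl⟩ u hu
    have h1 := hN₀ (mem_cj.1 hu)
    have h2 := hN.conj_mem _ h1 g
    have h3 : g * (g⁻¹ * u * g) * g⁻¹ = u := by group
    rwa [h3] at h2
  have hcard : ∀ ω : Om N₀, Nat.card ω.1 = Nat.card N₀ := by
    rintro ⟨U, g, rfl⟩
    exact card_cj g N₀
  let ω₀ : Om N₀ := ⟨N₀, 1, (cj_one N₀).symm⟩
  -- different conjugates have no common fixed vectors
  have hdis₀ : ∀ ω : Om N₀, ω ≠ ω₀ → ∀ v, v ∈ Fx ρ N₀ → v ∈ Fx ρ ω.1 → v = 0 := by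
    intro ω hω v hv hv'
    by_contra hv0
    apply hω
    have h1 : N₀ ⊔ ω.1 ∈ {U : Subgroup H | U ≤ N ∧ n ∈ U ∧ Fx ρ U ≠ ⊥} := by
      refine ⟨sup_le hN₀ (hle ω), (le_sup_left : N₀ ≤ N₀ ⊔ ω.1) hnN₀, ?_⟩
      intro h0
      have h2 : v ∈ Fx ρ (N₀ ⊔ ω.1) := by
        -- the stabiliser of `v`
        let St : Subgroup H :=
          { carrier := {u | ρ.f u v = v}
            mul_mem' := by
              intro a b ha hb
              change ρ.f (a * b) v = v
              rw [ρ.mul', hb, ha]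
            one_mem' := ρ.one' v
            inv_mem' := by
              intro a ha
              change ρ.f a⁻¹ v = v
              have h3 := ρ.inv_f a v
              rw [show ρ.f a v = v from ha] at h3
              exact h3 }
        have h4 : N₀ ⊔ ω.1 ≤ St := sup_le (fun u hu => hv u hu) (fun u hu => hv' u hu)
        exact fun u hu => h4 hu
      rw [h0] at h2
      exact hv0 (AddSubgroup.mem_bot.1 h2)
    have h2 := hmax.le_of_ge h1 le_sup_left
    have h3 : ω.1 ≤ N₀ := le_sup_right.trans h2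
    have h4 : ω.1 = N₀ := Subgroup.eq_of_le_of_card_ge h3 (hcard ω).ge
    exact Subtype.ext h4
  have hdis : ∀ ω ω' : Om N₀, ω ≠ ω' → ∀ v, v ∈ Fx ρ ω.1 → v ∈ Fx ρ ω'.1 → v = 0 := by
    intro ω ω' hne v hv hv'
    obtain ⟨g, hg⟩ := MulAction.exists_smul_eq H ω ω₀
    have h1 : g • ω' ≠ ω₀ := by
      intro h2
      apply hne
      rw [← h2] at hg
      exact MulAction.injective g hg
    have h2 : ρ.f g v ∈ Fx ρ N₀ := by
      have h3 := Fx_cj ρ (h := g) hv
      rw [← smul_val, hg] at h3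
      exact h3
    have h3 : ρ.f g v ∈ Fx ρ (g • ω').1 := Fx_cj ρ (h := g) hv'
    have h4 := hdis₀ _ h1 _ h2 h3
    have h5 := ρ.inv_f g v
    rw [h4, ρ.zero'] at h5
    exact h5.symm
  -- there are at least two conjugates
  have hnt : Nontrivial (Om N₀) := by
    by_contra hcon
    rw [not_nontrivial_iff_subsingleton] at hcon
    have h1 : ρ.Stb (Fx ρ N₀) := by
      intro k w hw
      have h2 := Fx_cj ρ (h := k) hw
      have h3 : k • ω₀ = ω₀ := Subsingleton.elim _ _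
      have h4 : cj k N₀ = N₀ := congrArg Subtype.val h3
      rwa [h4] at h2
    rcases hirr.2 _ h1 with h2 | h2
    · exact hFx₀ h2
    · apply hn1
      refine hfai n fun v => ?_
      have h3 : v ∈ Fx ρ N₀ := by rw [h2]; exact AddSubgroup.mem_top v
      exact h3 n hnN₀
  let _ : Fintype (Om N₀) := Fintype.ofFinite _
  -- the sum of the spaces
  let CT : Finset (Om N₀) → AddSubgroup V := fun T => ⨆ ω ∈ T, Fx ρ ω.1
  have hCT : ∀ (T : Finset (Om N₀)) (ω : Om N₀), ω ∈ T → Fx ρ ω.1 ≤ CT T := fun T ω hω =>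
    le_iSup₂_of_le ω hω le_rfl
  have hmap : ∀ (T T' : Finset (Om N₀)) (k : H), (∀ ω ∈ T, k • ω ∈ T') → ∀ v ∈ CT T,
      ρ.f k v ∈ CT T' := by
    intro T T' k hT
    have h1 : CT T ≤ (CT T').comap (ρ.hom k) := by
      refine iSup₂_le fun ω hω v hv => ?_
      rw [AddSubgroup.mem_comap]
      exact hCT T' (k • ω) (hT ω hω) (Fx_cj ρ (h := k) hv)
    exact fun v hv => h1 hv
  have hsing : ∀ (T : Finset (Om N₀)) (ω : Om N₀) (v : V), v ∈ Fx ρ ω.1 →
      (∑ ω' ∈ T, ee ρ ω'.1) v = if ω ∈ T then Nat.card N₀ • v else 0 := by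
    intro T ω v hv
    rw [AddMonoidHom.finsetSum_apply]
    have h1 : ∀ ω' : Om N₀, ee ρ ω'.1 v = if ω' = ω then Nat.card N₀ • v else 0 := by
      intro ω'
      split_ifs with h2
      · rw [h2, ee_fix ρ _ hv, hcard]
      · exact hdis ω' ω h2 _ (ee_mem ρ _ v) (ee_mem' ρ hNab (hle ω') (hle ω) hv)
    simp only [h1]
    rw [Finset.sum_ite_eq']
  have hindep : ∀ (T T' : Finset (Om N₀)), Disjoint T T' → ∀ v, v ∈ CT T → v ∈ CT T' → v = 0 := by
    intro T T' hTT v hv hv'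
    have h1 : CT T ≤ ((∑ ω' ∈ T, ee ρ ω'.1) - Nat.card N₀ • AddMonoidHom.id V).ker := by
      refine iSup₂_le fun ω hω w hw => ?_
      rw [AddMonoidHom.mem_ker, AddMonoidHom.sub_apply, hsing T ω w hw, if_pos hω]
      simp
    have h2 : CT T' ≤ (∑ ω' ∈ T, ee ρ ω'.1).ker := by
      refine iSup₂_le fun ω hω w hw => ?_
      rw [AddMonoidHom.mem_ker, hsing T ω w hw, if_neg]
      exact fun h3 => Finset.disjoint_left.1 hTT h3 hω
    have h3 := AddMonoidHom.mem_ker.1 (h1 hv)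
    have h4 := AddMonoidHom.mem_ker.1 (h2 hv')
    rw [AddMonoidHom.sub_apply, h4] at h3
    have h5 : Nat.card N₀ • v = 0 := by simpa using h3
    exact hCOP H V ρ N hfai hirr hN hNab N₀ hN₀ v h5
  have htop : CT Finset.univ = ⊤ := by
    have h1 : ρ.Stb (CT Finset.univ) := fun k w hw =>
      hmap Finset.univ Finset.univ k (fun ω _ => Finset.mem_univ _) w hw
    rcases hirr.2 _ h1 with h2 | h2
    · exfalso
      apply hFx₀
      rw [eq_bot_iff, ← h2]
      exact hCT Finset.univ ω₀ (Finset.mem_univ _)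
    · exact h2
  -- the element without fixed points
  obtain ⟨y, hy, hyfix⟩ := hL1 H (Om N₀) x hx
  obtain ⟨S, hS1, hS2⟩ := hHALF (Om N₀) (MulAction.toPerm y) hyfix
  let T : Finset (Om N₀) := Finset.univ.filter (fun ω => ω ∈ S)
  have hT : ∀ ω, ω ∈ T ↔ ω ∈ S := fun ω => by simp [T]
  -- the space is covered by three copies
  let F : CT T × CT T × CT T → V := fun t => t.1 + ρ.f y t.2.1 + ρ.f y⁻¹ t.2.2
  have hF : Function.Surjective F := by
    let W : AddSubgroup V := CT T ⊔ (CT T).map (ρ.hom y) ⊔ (CT T).map (ρ.hom y⁻¹)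
    have h1 : CT Finset.univ ≤ W := by
      refine iSup₂_le fun ω _ => ?_
      rcases hS2 ω with h2 | h2 | ⟨ω', h2, h3⟩
      · exact (hCT T ω ((hT ω).2 h2)).trans (le_sup_left.trans le_sup_left)
      · intro v hv
        refine (le_sup_right : (CT T).map (ρ.hom y⁻¹) ≤ W) ?_
        refine ⟨ρ.f y v, ?_, ρ.inv_f y v⟩
        exact hCT T (y • ω) ((hT _).2 h2) (Fx_cj ρ (h := y) hv)
      · intro v hv
        refine ((le_sup_right.trans le_sup_left : (CT T).map (ρ.hom y) ≤ W)) ?_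
        refine ⟨ρ.f y⁻¹ v, ?_, ρ.f_inv y v⟩
        have h4 : y⁻¹ • ω = ω' := by
          rw [h3]
          exact inv_smul_smul y ω'
        have h5 := Fx_cj ρ (h := y⁻¹) hv
        rw [← smul_val, h4] at h5
        exact hCT T ω' ((hT _).2 h2) h5
    intro v
    have h2 : v ∈ W := by
      apply h1
      rw [htop]
      exact AddSubgroup.mem_top v
    obtain ⟨a, ha, c, hc, rfl⟩ := AddSubgroup.mem_sup.1 h2
    obtain ⟨a', ha', b, hb, rfl⟩ := AddSubgroup.mem_sup.1 ha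
    obtain ⟨b', hb', rfl⟩ := hb
    obtain ⟨c', hc', rfl⟩ := hc
    exact ⟨(⟨a', ha'⟩, ⟨b', hb'⟩, ⟨c', hc'⟩), rfl⟩
  have hc1 : Nat.card V ≤ Nat.card (CT T) ^ 3 := by
    have h1 := Nat.card_le_card_of_surjective F hF
    rw [Nat.card_prod, Nat.card_prod] at h1
    calc Nat.card V ≤ _ := h1
      _ = Nat.card (CT T) ^ 3 := by ring
  -- `y - 1` is injective on this space
  have hc2 : Nat.card (CT T) ≤ Nat.card (ρ.dS y) := by
    let T' : Finset (Om N₀) := T.image (fun ω => y • ω)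
    have hTT' : Disjoint T T' := by
      rw [Finset.disjoint_left]
      intro ω h1 h2
      obtain ⟨ω', h3, rfl⟩ := Finset.mem_image.1 h2
      exact hS1 ω' ((hT _).1 h3) ((hT _).1 h1)
    let G : CT T → ρ.dS y := fun v => ⟨ρ.f y v - v, ⟨v, rfl⟩⟩
    refine Nat.card_le_card_of_injective G ?_
    intro v w hvw
    have h1 : ρ.f y v - v = ρ.f y w - w := congrArg Subtype.val hvw
    have h2 : ρ.f y ((v : V) - w) = (v : V) - w := by
      rw [ρ.sub']
      have h3 : ρ.f y (v : V) = ρ.f y w - w + v := by rw [← h1]; abel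
      rw [h3]
      abel
    have h3 : (v : V) - w ∈ CT T := AddSubgroup.sub_mem _ v.2 w.2
    have h4 : (v : V) - w ∈ CT T' := by
      rw [← h2]
      exact hmap T T' y (fun ω hω => Finset.mem_image_of_mem _ hω) _ h3
    have h5 := hindep T T' hTT' _ h3 h4
    exact Subtype.ext (sub_eq_zero.1 h5)
  have hc3 : Nat.card (ρ.dS y) ≤ Nat.card (ρ.dS x) ^ 2 := by
    rcases hy with rfl | ⟨b, rfl⟩
    · exact Nat.le_self_pow two_ne_zero _
    · exact hCOMM H V ρ x b
  calc Nat.card V ≤ Nat.card (CT T) ^ 3 := hc1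
    _ ≤ (Nat.card (ρ.dS x) ^ 2) ^ 3 := Nat.pow_le_pow_left (hc2.trans hc3) 3
    _ = Nat.card (ρ.dS x) ^ 6 := by rw [← pow_mul]

end Pool.Agent.Helper33.PS
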